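import Pool.Agent.Q247.LP.Trop

set_option autoImplicit false

/-!
# Determinants with independent random entries are not small

The entries are `c i j * X (i, j)` with arbitrary coefficients `c` (zeros allowed) and independent
`X (i, j)` whose laws give every interval of length `l` a mass of at most `2 ^ M * l`. The determinant
is below the largest term times `δ ^ d` with probability at most `2 ^ (M + 1) d δ`.
-/

namespace Pool.Agent.Q247.LP

open Finset MeasureTheory ENNReal

/-- Fubini: a bound for all sections in one coordinate. -/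
theorem pi_le_of_section {I : Type*} [Fintype I] [DecidableEq I] (μ : I → Measure ℝ)
    [∀ i, IsProbabilityMeasure (μ i)] (p : I) {S : Set (I → ℝ)} (hS : MeasurableSet S) {ε : ℝ≥0∞}
    (h : ∀ X : I → ℝ, μ p {x | Function.update X p x ∈ S} ≤ ε) : Measure.pi μ S ≤ ε := by
  have h1 : ∫⁻ X, S.indicator (fun _ => (1 : ℝ≥0∞)) X ∂Measure.pi μ ≤
      ∫⁻ _X, ε ∂Measure.pi μ := by
    refine lintegral_le_of_lmarginal_le {p} ?_ measurable_const ?_
    · exact measurable_const.indicator hS
    · rw [lmarginal_singleton, lmarginal_singleton]
      intro X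
      simp only
      have h2 : (fun x => S.indicator (fun _ => (1 : ℝ≥0∞)) (Function.update X p x)) =
          ({x | Function.update X p x ∈ S}).indicator (fun _ => (1 : ℝ≥0∞)) := by
        funext x
        by_cases hx : Function.update X p x ∈ S
        · rw [Set.indicator_of_mem hx, Set.indicator_of_mem (by exact hx)]
        · rw [Set.indicator_of_notMem hx, Set.indicator_of_notMem (by exact hx)]
      rw [h2]
      have hm : MeasurableSet {x | Function.update X p x ∈ S} := (measurable_update X (a := p)) hS
      have h4 : ∫⁻ a, ({x | Function.update X p x ∈ S}).indicator (fun _ => (1 : ℝ≥0∞)) a ∂μ p =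
          1 * μ p {x | Function.update X p x ∈ S} := lintegral_indicator_const hm 1
      calc lintegral (μ p) (({x | Function.update X p x ∈ S}).indicator (fun _ => (1 : ℝ≥0∞)))
          = 1 * μ p {x | Function.update X p x ∈ S} := h4
        _ ≤ ε := by rw [one_mul]; exact h X
        _ = ∫⁻ _, ε ∂μ p := by rw [lintegral_const, measure_univ, mul_one]
  rw [lintegral_indicator_const hS, one_mul, lintegral_const, measure_univ, mul_one] at h1
  exact h1

variable {m n : ℕ} (c : Fin m → Fin n → ℝ)

theorem continuous_det {d : ℕ} (f : Fin d → Fin m) (h : Fin d → Fin n) :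
    Continuous fun X : Fin m × Fin n → ℝ => ((mat c X).submatrix f h).det := by
  refine Continuous.matrix_det ?_
  refine continuous_matrix fun i j => ?_
  show Continuous fun X : Fin m × Fin n → ℝ => c (f i) (h j) * X (f i, h j)
  exact continuous_const.mul (continuous_apply _)

/-- a minor does not depend on an entry outside of its rows -/
theorem det_update_row {d : ℕ} (f : Fin d → Fin m) (h : Fin d → Fin n) (p : Fin m × Fin n)
    (hp : ∀ a, f a ≠ p.1) (X : Fin m × Fin n → ℝ) (x : ℝ) :
    ((mat c (Function.update X p x)).submatrix f h).det = ((mat c X).submatrix f h).det := by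
  congr 1
  ext i j
  show c (f i) (h j) * Function.update X p x (f i, h j) = c (f i) (h j) * X (f i, h j)
  rw [Function.update_of_ne]
  intro h1
  exact hp i (congrArg Prod.fst h1)

/-- **Determinants are not small.** -/
theorem det_small {μ : Fin m × Fin n → Measure ℝ} [∀ p, IsProbabilityMeasure (μ p)] {M : ℕ}
    (hμ : ∀ p a b, μ p (Set.Icc a b) ≤ ENNReal.ofReal (2 ^ M * (b - a))) {δ : ℝ} (hδ : 0 ≤ δ) :
    ∀ (d : ℕ) (f : Fin d → Fin m) (h : Fin d → Fin n), Function.Injective f →
      Function.Injective h →
      Measure.pi μ {X | |((mat c X).submatrix f h).det| < trop c d f h * δ ^ d} ≤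
        ENNReal.ofReal (d * (2 ^ M * (2 * δ)))
  | 0, f, h, _, _ => by
    have : {X : Fin m × Fin n → ℝ | |((mat c X).submatrix f h).det| < trop c 0 f h * δ ^ 0} = ∅ := by
      ext X
      simp [trop]
    rw [this]
    simp
  | d + 1, f, h, hf, hh => by
    classical
    obtain ⟨j, hj⟩ := trop_attained c d f h
    set W := trop c d (fun a => f a.succ) (fun a => h (j.succAbove a)) with hW
    have hW0 : 0 ≤ W := trop_nonneg c d _ _
    rcases (mul_nonneg (abs_nonneg (c (f 0) (h j))) hW0).eq_or_lt with h0 | h0
    · have : {X : Fin m × Fin n → ℝ | |((mat c X).submatrix f h).det| <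
          trop c (d + 1) f h * δ ^ (d + 1)} = ∅ := by
        ext X
        simp only [Set.mem_ofPred_eq, Set.mem_empty_iff_false, iff_false, not_lt]
        rw [hj, ← h0, zero_mul]
        exact abs_nonneg _
      rw [this]
      simp
    have hc0 : 0 < |c (f 0) (h j)| := by
      rcases (abs_nonneg (c (f 0) (h j))).eq_or_lt with h1 | h1
      · rw [← h1, zero_mul] at h0
        exact absurd h0 (lt_irrefl _)
      · exact h1
    have hWp : 0 < W := by
      rcases hW0.eq_or_lt with h1 | h1
      · rw [← h1, mul_zero] at h0
        exact absurd h0 (lt_irrefl _)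
      · exact h1
    rcases hδ.eq_or_lt with hδ0 | hδp
    · have : {X : Fin m × Fin n → ℝ | |((mat c X).submatrix f h).det| <
          trop c (d + 1) f h * δ ^ (d + 1)} = ∅ := by
        ext X
        simp only [Set.mem_ofPred_eq, Set.mem_empty_iff_false, iff_false, not_lt]
        rw [← hδ0, zero_pow (Nat.succ_ne_zero d), mul_zero]
        exact abs_nonneg _
      rw [this]
      simp
    set p : Fin m × Fin n := (f 0, h j) with hp
    set f' : Fin d → Fin m := fun a => f a.succ with hf'
    have hfp : ∀ a, f' a ≠ p.1 := fun a h1 => Fin.succ_ne_zero a (hf h1)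
    set G : (Fin m × Fin n → ℝ) → ℝ := fun X =>
      ((mat c X).submatrix f' (fun a => h (j.succAbove a))).det with hG
    set H : (Fin m × Fin n → ℝ) → ℝ := fun X => ∑ b ∈ (univ : Finset (Fin (d + 1))).erase j,
      (-1) ^ (b : ℕ) * (c (f 0) (h b) * X (f 0, h b)) *
        ((mat c X).submatrix f' (fun a => h (b.succAbove a))).det with hH
    have hdet : ∀ X, ((mat c X).submatrix f h).det =
        (-1) ^ (j : ℕ) * (c (f 0) (h j) * X p) * G X + H X := by
      intro X
      rw [det_expand, ← Finset.add_sum_erase _ _ (mem_univ j)]
    have hGu : ∀ X x, G (Function.update X p x) = G X := fun X x =>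
      det_update_row c f' _ p hfp X x
    have hHu : ∀ X x, H (Function.update X p x) = H X := by
      intro X x
      simp only [hH]
      refine Finset.sum_congr rfl fun b hb => ?_
      rw [det_update_row c f' _ p hfp X x, Function.update_of_ne]
      intro h1
      exact Finset.ne_of_mem_erase hb (hh (congrArg Prod.snd h1))
    set S : Set (Fin m × Fin n → ℝ) := {X | W * δ ^ d ≤ |G X| ∧
      |((mat c X).submatrix f h).det| < trop c (d + 1) f h * δ ^ (d + 1)} with hS
    have hSm : MeasurableSet S := by
      refine MeasurableSet.inter ?_ ?_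
      · exact measurableSet_le measurable_const (continuous_det c f' _).abs.measurable
      · exact measurableSet_lt (continuous_det c f h).abs.measurable measurable_const
    have hSle : Measure.pi μ S ≤ ENNReal.ofReal (2 ^ M * (2 * δ)) := by
      refine pi_le_of_section μ p hSm fun X => ?_
      by_cases hGX : W * δ ^ d ≤ |G X|
      · have hWδ : 0 < W * δ ^ d := by positivity
        have hG0 : 0 < |G X| := lt_of_lt_of_le hWδ hGX
        set z : ℝ := (-1) ^ (j : ℕ) * c (f 0) (h j) * G X with hz
        have hzabs : |z| = |c (f 0) (h j)| * |G X| := by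
          rw [hz, abs_mul, abs_mul, abs_pow, abs_neg, abs_one, one_pow, one_mul]
        have hz0 : 0 < |z| := by
          rw [hzabs]
          positivity
        have hzne : z ≠ 0 := abs_pos.1 hz0
        refine le_trans (measure_mono ?_) (le_trans (hμ p (-(H X / z) - δ) (-(H X / z) + δ)) ?_)
        · intro x hx
          have hx2 := hx.2
          rw [hdet, hGu, hHu, Function.update_self, hj] at hx2
          have h3 : (-1) ^ (j : ℕ) * (c (f 0) (h j) * x) * G X + H X = z * (x + H X / z) := by
            field_simp
            rw [hz]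
            ring
          rw [h3, abs_mul, hzabs] at hx2
          have h4 : |x + H X / z| < δ := by
            by_contra hcon
            push Not at hcon
            have h5 : |c (f 0) (h j)| * W * δ ^ (d + 1) ≤
                |c (f 0) (h j)| * |G X| * |x + H X / z| := by
              calc |c (f 0) (h j)| * W * δ ^ (d + 1) = |c (f 0) (h j)| * (W * δ ^ d) * δ := by
                    ring
                _ ≤ |c (f 0) (h j)| * |G X| * |x + H X / z| := by
                    gcongr
            linarith
          rw [abs_lt] at h4
          constructor <;> linarith [h4.1, h4.2]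
        · apply le_of_eq
          congr 1
          ring
      · have : {x | Function.update X p x ∈ S} = ∅ := by
          ext x
          simp only [Set.mem_ofPred_eq, Set.mem_empty_iff_false, iff_false]
          intro hx
          have h1 := hx.1
          rw [hGu] at h1
          exact hGX h1
        rw [this]
        simp
    have hrec := det_small hμ hδ d f' (fun a => h (j.succAbove a))
      (fun a b hab => Fin.succ_injective d (hf hab))
      (fun a b hab => Fin.succAbove_right_injective (hh hab))
    have hsub : {X : Fin m × Fin n → ℝ | |((mat c X).submatrix f h).det| <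
        trop c (d + 1) f h * δ ^ (d + 1)} ⊆
        {X | |((mat c X).submatrix f' (fun a => h (j.succAbove a))).det| <
          trop c d f' (fun a => h (j.succAbove a)) * δ ^ d} ∪ S := by
      intro X hX
      by_cases h1 : W * δ ^ d ≤ |G X|
      · right
        exact ⟨h1, hX⟩
      · left
        push Not at h1
        exact h1
    calc Measure.pi μ {X : Fin m × Fin n → ℝ | |((mat c X).submatrix f h).det| <
        trop c (d + 1) f h * δ ^ (d + 1)}
        ≤ _ := measure_mono hsub
      _ ≤ _ := measure_union_le _ _
      _ ≤ ENNReal.ofReal (d * (2 ^ M * (2 * δ))) + ENNReal.ofReal (2 ^ M * (2 * δ)) :=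
          add_le_add hrec hSle
      _ = _ := by
          rw [← ENNReal.ofReal_add (by positivity) (by positivity)]
          congr 1
          push_cast
          ring

/-- **Entries are not large.** -/
theorem entry_large {I : Type*} [Fintype I] (μ : I → Measure ℝ) [∀ i, IsProbabilityMeasure (μ i)]
    {M : ℕ} (hμ : ∀ p, ∫⁻ x, ENNReal.ofReal |x| ∂μ p ≤ 2 ^ M) (N : ℕ) (p : I) :
    Measure.pi μ {X | 2 ^ (M + N) < |X p|} ≤ ENNReal.ofReal ((1 / 2) ^ N) := by
  classical
  have h1 : Measure.pi μ {X | 2 ^ (M + N) < |X p|} = μ p {x | 2 ^ (M + N) < |x|} := by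
    have h2 := (measurePreserving_eval μ p).measure_preimage
      (s := {x : ℝ | 2 ^ (M + N) < |x|})
      (measurableSet_lt measurable_const measurable_id.abs).nullMeasurableSet
    rw [← h2]
    rfl
  rw [h1]
  have h3 : μ p {x | 2 ^ (M + N) < |x|} ≤
      μ p {x | ENNReal.ofReal (2 ^ (M + N)) ≤ ENNReal.ofReal |x|} := by
    refine measure_mono fun x hx => ?_
    exact ENNReal.ofReal_le_ofReal (le_of_lt hx)
  have h4 := mul_meas_ge_le_lintegral₀ (μ := μ p) (f := fun x => ENNReal.ofReal |x|)
    (ENNReal.measurable_ofReal.comp measurable_id.abs).aemeasurable (ENNReal.ofReal (2 ^ (M + N)))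
  have h5 : ENNReal.ofReal (2 ^ (M + N)) * μ p {x | 2 ^ (M + N) < |x|} ≤ 2 ^ M :=
    (mul_le_mul_right h3 _).trans (h4.trans (hμ p))
  have h6 : μ p {x | 2 ^ (M + N) < |x|} ≤ 2 ^ M / ENNReal.ofReal (2 ^ (M + N)) := by
    rw [ENNReal.le_div_iff_mul_le (Or.inl ?_) (Or.inl ENNReal.ofReal_ne_top), mul_comm]
    · exact h5
    · rw [Ne, ENNReal.ofReal_eq_zero, not_le]
      positivity
  refine h6.trans (le_of_eq ?_)
  have h7 : (2 : ℝ≥0∞) ^ M = ENNReal.ofReal (2 ^ M) := by
    rw [ENNReal.ofReal_pow (by norm_num)]
    norm_num
  rw [h7, ← ENNReal.ofReal_div_of_pos (by positivity)]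
  congr 1
  rw [pow_add, one_div, inv_pow]
  field_simp

end Pool.Agent.Q247.LP
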