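import Pool.Agent.Q247.LP.Prob

set_option autoImplicit false

/-!
# Ratios of the entries of circuits of random matrices with unknown scales
-/

namespace Pool.Agent.Q247.LP

open Finset MeasureTheory ENNReal

variable {m n : ℕ}

/-- `C` is an elementary vector of the left kernel of `B`. -/
def Circuit (B : Matrix (Fin m) (Fin n) ℝ) (C : Fin m → ℝ) : Prop :=
  C ≠ 0 ∧ B.vecMul C = 0 ∧
  ∀ D : Fin m → ℝ, B.vecMul D = 0 → (∀ i, C i = 0 → D i = 0) → ∃ l : ℝ, D = l • C

/-- A choice of columns. (Copied from the starting file `Pool/Agent/Y648/CW/T_SPAN.lean`.) -/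
theorem exists_cols {r : ℕ} (M : Matrix (Fin r) (Fin n) ℝ) (h : LinearIndependent ℝ M.row) :
    ∃ c : Fin r → Fin n, (M.submatrix id c).det ≠ 0 := by
  classical
  have hrank : M.rank = r := by
    rw [h.rank_matrix, Fintype.card_fin]
  rw [M.rank_eq_finrank_span_cols] at hrank
  obtain ⟨κ', a, ha, hspan, hli⟩ := exists_linearIndependent' ℝ M.col
  have hfin : Finite κ' := hli.finite
  have : Fintype κ' := Fintype.ofFinite κ'
  have hcard : Fintype.card κ' = r := by
    rw [linearIndependent_iff_card_eq_finrank_span.1 hli, Set.finrank, hspan, hrank]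
  obtain ⟨e⟩ : Nonempty (Fin r ≃ κ') := by
    rw [← Fintype.card_eq, Fintype.card_fin, hcard]
  refine ⟨fun j => a (e j), ?_⟩
  have h2 : (M.submatrix id fun j => a (e j)).col = (M.col ∘ a) ∘ e := by
    funext j i
    rfl
  have h3 : LinearIndependent ℝ (M.submatrix id fun j => a (e j)).col := by
    rw [h2]
    exact hli.comp _ e.injective
  have h4 := Matrix.linearIndependent_cols_iff_isUnit.1 h3
  exact ((Matrix.isUnit_iff_isUnit_det _).1 h4).ne_zero

/-- Cramer's rule for circuits. (Adapted from the starting file `Pool/Agent/Y648/CW/T_SPAN.lean`.) -/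
theorem circ_minor {B : Matrix (Fin m) (Fin n) ℝ} {C : Fin m → ℝ} (hC : Circuit B C) {i j : Fin m}
    (hij : i ≠ j) (hi : C i ≠ 0) (hj : C j ≠ 0) :
    ∃ (d : ℕ) (f : Fin d → Fin m) (k0 : Fin d) (h : Fin d → Fin n), f k0 = i ∧
      (B.submatrix f h).det ≠ 0 ∧
      (B.submatrix (Function.update f k0 j) h).det = -(C i / C j) * (B.submatrix f h).det := by
  classical
  set T : Set (Fin m) := {c | C c ≠ 0 ∧ c ≠ j} with hT
  have hCB : ∀ col, ∑ c, C c * B c col = 0 := fun col => congrFun hC.2.1 col
  have hTli : LinearIndepOn ℝ B.row T := by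
    rw [LinearIndepOn, Fintype.linearIndependent_iff]
    intro g hg
    set D : Fin m → ℝ := fun c => if hc : c ∈ T then g ⟨c, hc⟩ else 0 with hD
    have hD0 : B.vecMul D = 0 := by
      funext col
      show ∑ c, D c * B c col = 0
      have h1 := congrFun hg col
      rw [Finset.sum_apply] at h1
      have h2 : ∑ x : T, (g x • B.row x) col = ∑ c, D c * B c col := by
        refine Fintype.sum_of_injective (fun x : T => (x : Fin m)) Subtype.val_injective _ _ ?_ ?_
        · intro c hc
          have hc' : c ∉ T := fun h => hc ⟨⟨c, h⟩, rfl⟩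
          simp only [hD]
          rw [dif_neg hc', zero_mul]
        · intro x
          simp only [hD]
          rw [dif_pos x.2]
          rfl
      rw [← h2]
      exact h1
    obtain ⟨l, hl⟩ := hC.2.2 D hD0 (by
      intro c hc
      simp only [hD]
      rw [dif_neg]
      rintro ⟨h1, -⟩
      exact h1 hc)
    have hl0 : l = 0 := by
      have h1 : D j = l * C j := congrFun hl j
      have h2 : D j = 0 := by
        simp only [hD]
        rw [dif_neg]
        rintro ⟨-, h⟩
        exact h rfl
      rw [h2] at h1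
      rcases mul_eq_zero.1 h1.symm with h3 | h3
      · exact h3
      · exact absurd h3 hj
    intro x
    have h1 : D x = l * C x := congrFun hl x
    rw [hl0, zero_mul] at h1
    simp only [hD] at h1
    rw [dif_pos x.2] at h1
    exact h1
  obtain ⟨b, -, hTb, hspan, hli⟩ := exists_linearIndepOn_extension hTli (Set.subset_univ T)
  obtain ⟨d, ⟨e⟩⟩ : ∃ d : ℕ, Nonempty (Fin d ≃ b) :=
    ⟨Fintype.card b, ⟨(Fintype.equivFin b).symm⟩⟩
  set f : Fin d → Fin m := fun k => (e k : Fin m) with hf
  have hfinj : Function.Injective f := fun a b hab => e.injective (Subtype.ext hab)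
  obtain ⟨h, hdet⟩ := exists_cols (B.submatrix f id) (by
    have h1 : (B.submatrix f id).row = (fun x : b => B.row x) ∘ e := by
      funext k c
      rfl
    rw [h1]
    exact hli.comp _ e.injective)
  have hsub : (B.submatrix f id).submatrix id h = B.submatrix f h := rfl
  rw [hsub] at hdet
  have hib : i ∈ b := hTb ⟨hi, hij⟩
  obtain ⟨k0, hk0⟩ : ∃ k0, f k0 = i := ⟨e.symm ⟨i, hib⟩, by simp [hf]⟩
  refine ⟨d, f, k0, h, hk0, hdet, ?_⟩
  set c' : Fin m → ℝ := fun x => if x = j then 0 else -(C x / C j) with hc'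
  have hrow : ∀ col, B j col = ∑ k, c' (f k) * B (f k) col := by
    intro col
    have h1 : ∑ k, c' (f k) * B (f k) col = ∑ x, c' x * B x col := by
      refine Fintype.sum_of_injective f hfinj _ _ ?_ (fun _ => rfl)
      intro x hx
      have hxb : x ∉ b := fun hxb => hx ⟨e.symm ⟨x, hxb⟩, by simp [hf]⟩
      have hxT : x ∉ T := fun h => hxb (hTb h)
      have hc0 : c' x = 0 := by
        simp only [hc']
        split_ifs with hxj
        · rfl
        · have : C x = 0 := by
            by_contra hne
            exact hxT ⟨hne, hxj⟩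
          rw [this, zero_div, neg_zero]
      rw [hc0, zero_mul]
    rw [h1]
    have h2 := hCB col
    rw [← Finset.add_sum_erase _ _ (Finset.mem_univ j)] at h2
    rw [← Finset.add_sum_erase _ _ (Finset.mem_univ j)]
    have h3 : c' j = 0 := by simp [hc']
    rw [h3, zero_mul, zero_add]
    have h4 : ∑ x ∈ Finset.univ.erase j, c' x * B x col
        = -(∑ x ∈ Finset.univ.erase j, C x * B x col) / C j := by
      rw [neg_div, Finset.sum_div, ← Finset.sum_neg_distrib]
      refine Finset.sum_congr rfl fun x hx => ?_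
      have hxj := Finset.ne_of_mem_erase hx
      simp only [hc']
      rw [if_neg hxj]
      ring
    rw [h4]
    field_simp
    linarith
  have hmat : B.submatrix (Function.update f k0 j) h
      = (B.submatrix f h).updateRow k0 (∑ k, (fun k => c' (f k)) k • (B.submatrix f h) k) := by
    ext a d
    by_cases hak : a = k0
    · subst hak
      rw [Matrix.updateRow_self, Matrix.submatrix_apply, Function.update_self, hrow (h d),
        Finset.sum_apply]
      rfl
    · rw [Matrix.updateRow_ne hak, Matrix.submatrix_apply, Function.update_of_ne hak]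
      rfl
  rw [hmat, Matrix.det_updateRow_sum]
  have : c' (f k0) = -(C i / C j) := by
    rw [hk0]
    simp only [hc']
    rw [if_neg hij]
  show c' (f k0) • _ = _
  rw [this, smul_eq_mul]

theorem inj_rows {d : ℕ} (B : Matrix (Fin m) (Fin n) ℝ) (f : Fin d → Fin m) (h : Fin d → Fin n)
    (hdet : (B.submatrix f h).det ≠ 0) : Function.Injective f := by
  intro a b hab
  by_contra hne
  apply hdet
  refine Matrix.det_zero_of_row_eq hne ?_
  funext k
  show B (f a) (h k) = B (f b) (h k)
  rw [hab]

theorem inj_cols {d : ℕ} (B : Matrix (Fin m) (Fin n) ℝ) (f : Fin d → Fin m) (h : Fin d → Fin n)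
    (hdet : (B.submatrix f h).det ≠ 0) : Function.Injective h := by
  intro a b hab
  by_contra hne
  apply hdet
  refine Matrix.det_zero_of_column_eq hne ?_
  intro k
  show B (f k) (h a) = B (f k) (h b)
  rw [hab]

/-- **Ratios of the entries of circuits**, for typical `X`. -/
theorem ratio {K M : ℕ} {c : Fin m → Fin n → ℝ} (t : Fin K → ℝ) (ht : ∀ k, 0 < t k)
    (u : Fin m → ℝ) (hu : ∀ i, u i ≠ 0) (v : Fin n → ℝ) (e : Fin m → Fin n → Fin K → ℤ)
    (he : ∀ i j k, |e i j k| ≤ M)
    (hc : ∀ i j, c i j = 0 ∨ c i j = u i * v j * ∏ k, t k ^ e i j k)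
    {X : Fin m × Fin n → ℝ} {B δ : ℝ} (hB : 1 ≤ B) (hδ : 0 < δ) (hδ1 : δ ≤ 1)
    (hX : ∀ p, |X p| ≤ B)
    (hlow : ∀ (d : ℕ) (f : Fin d → Fin m) (h : Fin d → Fin n), Function.Injective f →
      Function.Injective h → trop c d f h * δ ^ d ≤ |((mat c X).submatrix f h).det|)
    {C : Fin m → ℝ} (hC : Circuit (mat c X) C) (i j : Fin m) (hi : C i ≠ 0) (hj : C j ≠ 0) :
    ∃ E : Fin K → ℤ, (∀ k, |E k| ≤ 2 * (m * M : ℕ)) ∧
      |u j| / |u i| * (∏ k, t k ^ E k) ≤ ((m.factorial : ℝ) * B ^ m / δ ^ m) * |C i / C j| ∧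
      |C i / C j| ≤ ((m.factorial : ℝ) * B ^ m / δ ^ m) * (|u j| / |u i| * ∏ k, t k ^ E k) := by
  have hρ1 : (1 : ℝ) ≤ (m.factorial : ℝ) * B ^ m / δ ^ m := by
    rw [le_div_iff₀ (by positivity), one_mul]
    calc δ ^ m ≤ 1 := pow_le_one₀ hδ.le hδ1
      _ ≤ (m.factorial : ℝ) := by exact_mod_cast Nat.factorial_pos m
      _ = (m.factorial : ℝ) * 1 := (mul_one _).symm
      _ ≤ _ := by
          have : (1 : ℝ) ≤ B ^ m := one_le_pow₀ hB
          gcongr
  by_cases hij : i = j
  · subst hij
    refine ⟨0, fun k => by simp; positivity, ?_, ?_⟩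
    · rw [div_self (abs_ne_zero.2 (hu i)), div_self hi]
      simpa using hρ1
    · rw [div_self (abs_ne_zero.2 (hu i)), div_self hi]
      simpa using hρ1
  obtain ⟨d, f, k0, h, hk0, hdet, hdet'⟩ := circ_minor hC hij hi hj
  have hdne : ((mat c X).submatrix (Function.update f k0 j) h).det ≠ 0 := by
    rw [hdet']
    exact mul_ne_zero (neg_ne_zero.2 (div_ne_zero hi hj)) hdet
  have hfi := inj_rows _ f h hdet
  have hhi := inj_cols _ f h hdet
  have hfi' := inj_rows _ _ h hdne
  have hdm : d ≤ m := by
    have := Fintype.card_le_of_injective f hfi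
    simpa using this
  set f' := Function.update f k0 j with hf'
  set W := trop c d f h with hW
  set W' := trop c d f' h with hW'
  set R : ℝ := (d.factorial : ℝ) * B ^ d with hR
  have hR0 : 0 < R := by
    have : (0 : ℝ) < d.factorial := by exact_mod_cast Nat.factorial_pos d
    positivity
  have up1 : |((mat c X).submatrix f h).det| ≤ R * W := det_le c (by linarith) hX d f h
  have up2 : |((mat c X).submatrix f' h).det| ≤ R * W' := det_le c (by linarith) hX d f' h
  have lo1 := hlow d f h hfi hhi
  have lo2 := hlow d f' h hfi' hhi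
  have hWp : 0 < W := by
    have h1 : 0 < R * W := lt_of_lt_of_le (abs_pos.2 hdet) up1
    exact (pos_iff_pos_of_mul_pos h1).1 hR0
  have hWp' : 0 < W' := by
    have h1 : 0 < R * W' := lt_of_lt_of_le (abs_pos.2 hdne) up2
    exact (pos_iff_pos_of_mul_pos h1).1 hR0
  rcases trop_val c t ht u v e M he hc d f h with h0 | ⟨E, hE, hEW⟩
  · exact absurd h0 hWp.ne'
  rcases trop_val c t ht u v e M he hc d f' h with h0 | ⟨E', hE', hEW'⟩
  · exact absurd h0 hWp'.ne'
  have hratio : |C i / C j| * |((mat c X).submatrix f h).det| =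
      |((mat c X).submatrix f' h).det| := by
    rw [hdet', abs_mul, abs_neg]
  -- the ratio of the largest terms
  have huprod : (∏ a, |u (f' a)|) * |u i| = (∏ a, |u (f a)|) * |u j| := by
    have h1 : ∀ g : Fin d → Fin m, ∏ a, |u (g a)| = |u (g k0)| * ∏ a ∈ univ.erase k0, |u (g a)| :=
      fun g => (Finset.mul_prod_erase _ _ (mem_univ k0)).symm
    rw [h1 f', h1 f]
    have h2 : ∏ a ∈ univ.erase k0, |u (f' a)| = ∏ a ∈ univ.erase k0, |u (f a)| := by
      refine Finset.prod_congr rfl fun a ha => ?_
      rw [hf', Function.update_of_ne (Finset.ne_of_mem_erase ha)]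
    have h3 : f' k0 = j := by rw [hf', Function.update_self]
    rw [h2, h3, hk0]
    ring
  have hui : 0 < |u i| := abs_pos.2 (hu i)
  have hWW : W' = W * (|u j| / |u i| * ∏ k, t k ^ (E' k - E k)) := by
    have h4 : (∏ k, t k ^ (E' k - E k)) * ∏ k, t k ^ E k = ∏ k, t k ^ E' k := by
      rw [← Finset.prod_mul_distrib]
      refine Finset.prod_congr rfl fun k _ => ?_
      rw [← zpow_add₀ (ht k).ne']
      congr 1
      ring
    have h5 : (∏ a, |u (f' a)|) = (∏ a, |u (f a)|) * (|u j| / |u i|) := by
      field_simp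
      linarith
    rw [hW', hW, hEW', hEW, h5, ← h4]
    ring
  set σ : ℝ := |u j| / |u i| * ∏ k, t k ^ (E' k - E k) with hσ
  have hσ0 : 0 < σ := by
    have : 0 < W * σ := by rw [← hWW]; exact hWp'
    exact (pos_iff_pos_of_mul_pos this).1 hWp
  have hδd : 0 < δ ^ d := by positivity
  have hRle : R / δ ^ d ≤ (m.factorial : ℝ) * B ^ m / δ ^ m := by
    have h1 : R ≤ (m.factorial : ℝ) * B ^ m := by
      have h2 : (d.factorial : ℝ) ≤ m.factorial := by exact_mod_cast Nat.factorial_le hdm
      have h3 : B ^ d ≤ B ^ m := pow_le_pow_right₀ hB hdm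
      rw [hR]
      gcongr
    have h4 : δ ^ m ≤ δ ^ d := pow_le_pow_of_le_one hδ.le hδ1 hdm
    gcongr
  refine ⟨fun k => E' k - E k, fun k => ?_, ?_, ?_⟩
  · have hdM : (d : ℤ) * M ≤ (m * M : ℕ) := by
      push_cast
      have : (d : ℤ) ≤ m := by exact_mod_cast hdm
      gcongr
    calc |E' k - E k| ≤ |E' k| + |E k| := abs_sub _ _
      _ ≤ d * M + d * M := add_le_add (hE' k) (hE k)
      _ ≤ _ := by linarith
  · -- `σ ≤ ρ |C i / C j|`
    show σ ≤ _
    have h1 : σ * δ ^ d ≤ R * |C i / C j| := by
      have h2 : W * (σ * δ ^ d) ≤ W * (R * |C i / C j|) := by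
        calc W * (σ * δ ^ d) = W' * δ ^ d := by rw [hWW]; ring
          _ ≤ |((mat c X).submatrix f' h).det| := lo2
          _ = |C i / C j| * |((mat c X).submatrix f h).det| := hratio.symm
          _ ≤ |C i / C j| * (R * W) := by gcongr
          _ = _ := by ring
      exact le_of_mul_le_mul_left h2 hWp
    calc σ = σ * δ ^ d / δ ^ d := by field_simp
      _ ≤ R * |C i / C j| / δ ^ d := by gcongr
      _ = R / δ ^ d * |C i / C j| := by ring
      _ ≤ _ := by gcongr
  · show _ ≤ _ * σ
    have h1 : |C i / C j| * δ ^ d ≤ R * σ := by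
      have h2 : W * (|C i / C j| * δ ^ d) ≤ W * (R * σ) := by
        calc W * (|C i / C j| * δ ^ d) = |C i / C j| * (W * δ ^ d) := by ring
          _ ≤ |C i / C j| * |((mat c X).submatrix f h).det| := by gcongr
          _ = |((mat c X).submatrix f' h).det| := hratio
          _ ≤ R * W' := up2
          _ = _ := by rw [hWW]; ring
      exact le_of_mul_le_mul_left h2 hWp
    calc |C i / C j| = |C i / C j| * δ ^ d / δ ^ d := by field_simp
      _ ≤ R * σ / δ ^ d := by gcongr
      _ = R / δ ^ d * σ := by ring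
      _ ≤ _ := by gcongr

/-- The exceptional matrices. -/
def Bad (c : Fin m → Fin n → ℝ) (B δ : ℝ) : Set (Fin m × Fin n → ℝ) :=
  {X | ¬ ((∀ p, |X p| ≤ B) ∧ ∀ (d : ℕ) (f : Fin d → Fin m) (h : Fin d → Fin n),
    Function.Injective f → Function.Injective h →
      trop c d f h * δ ^ d ≤ |((mat c X).submatrix f h).det|)}

/-- **Typical matrices.** -/
theorem typical (c : Fin m → Fin n → ℝ) (μ : Fin m × Fin n → Measure ℝ)
    [∀ p, IsProbabilityMeasure (μ p)] {M : ℕ}
    (hμ : ∀ p a b, μ p (Set.Icc a b) ≤ ENNReal.ofReal (2 ^ M * (b - a)))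
    (hμ' : ∀ p, ∫⁻ x, ENNReal.ofReal |x| ∂μ p ≤ 2 ^ M) :
    Measure.pi μ (Bad c (2 ^ (M + (m + n + M + 1)))
      ((1 / 2) ^ (2 * m + (m + n) * m + 2 * M + 2))) ≤ ENNReal.ofReal ((1 / 2) ^ M) := by
  classical
  set δ : ℝ := (1 / 2) ^ (2 * m + (m + n) * m + 2 * M + 2) with hδ
  have hδ0 : 0 ≤ δ := by positivity
  set N : ℕ := m + n + M + 1 with hN
  have hsub : Bad c (2 ^ (M + N)) δ ⊆
      (⋃ p ∈ (univ : Finset (Fin m × Fin n)), {X : Fin m × Fin n → ℝ | 2 ^ (M + N) < |X p|}) ∪
      ⋃ d ∈ range (m + 1), ⋃ f ∈ (univ : Finset (Fin d → Fin m)).filter Function.Injective,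
        ⋃ h ∈ (univ : Finset (Fin d → Fin n)).filter Function.Injective,
        {X | |((mat c X).submatrix f h).det| < trop c d f h * δ ^ d} := by
    intro X hX
    unfold Bad at hX
    rw [Set.mem_ofPred_eq, not_and_or] at hX
    rcases hX with hX | hX
    · left
      push Not at hX
      obtain ⟨p, hp⟩ := hX
      simp only [Set.mem_iUnion]
      exact ⟨p, mem_univ p, hp⟩
    · right
      push Not at hX
      obtain ⟨d, f, h, hf, hh, hlt⟩ := hX
      simp only [Set.mem_iUnion]
      refine ⟨d, ?_, f, ?_, h, ?_, hlt⟩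
      · rw [mem_range]
        have := Fintype.card_le_of_injective f hf
        simp only [Fintype.card_fin] at this
        omega
      · exact mem_filter.2 ⟨mem_univ _, hf⟩
      · exact mem_filter.2 ⟨mem_univ _, hh⟩
  have h1 : Measure.pi μ (⋃ p ∈ (univ : Finset (Fin m × Fin n)),
      {X : Fin m × Fin n → ℝ | 2 ^ (M + N) < |X p|}) ≤ ENNReal.ofReal ((1 / 2) ^ (M + 1)) := by
    refine (measure_biUnion_finset_le _ _).trans ?_
    refine (Finset.sum_le_sum fun p _ => entry_large μ hμ' N p).trans ?_
    rw [Finset.sum_const, card_univ, Fintype.card_prod, Fintype.card_fin, Fintype.card_fin,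
      nsmul_eq_mul, ← ENNReal.ofReal_natCast, ← ENNReal.ofReal_mul (by positivity)]
    apply ENNReal.ofReal_le_ofReal
    have h2 : ((m * n : ℕ) : ℝ) ≤ 2 ^ (m + n) := by
      have h3 : m * n ≤ 2 ^ (m + n) := by
        rw [pow_add]
        exact Nat.mul_le_mul Nat.lt_two_pow_self.le Nat.lt_two_pow_self.le
      exact_mod_cast h3
    calc ((m * n : ℕ) : ℝ) * (1 / 2) ^ N ≤ 2 ^ (m + n) * (1 / 2) ^ N := by gcongr
      _ = (1 / 2) ^ (M + 1) := by
        rw [hN, show m + n + M + 1 = (m + n) + (M + 1) by ring, pow_add (1 / 2 : ℝ), ← mul_assoc,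
          ← mul_pow]
        norm_num
  have h2 : Measure.pi μ (⋃ d ∈ range (m + 1),
      ⋃ f ∈ (univ : Finset (Fin d → Fin m)).filter Function.Injective,
        ⋃ h ∈ (univ : Finset (Fin d → Fin n)).filter Function.Injective,
        {X | |((mat c X).submatrix f h).det| < trop c d f h * δ ^ d}) ≤
      ENNReal.ofReal ((1 / 2) ^ (M + 1)) := by
    have hm : (m : ℝ) ≤ 2 ^ m := by exact_mod_cast Nat.lt_two_pow_self.le
    have hn : (n : ℝ) ≤ 2 ^ n := by exact_mod_cast Nat.lt_two_pow_self.le
    have hm1 : ((m + 1 : ℕ) : ℝ) ≤ 2 ^ m := by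
      have : m + 1 ≤ 2 ^ m := Nat.lt_two_pow_self
      exact_mod_cast this
    set q : ℝ := 2 ^ m * (2 ^ M * (2 * δ)) with hq
    have hq0 : 0 ≤ q := by positivity
    have hone : ∀ d ∈ range (m + 1), Measure.pi μ
        (⋃ f ∈ (univ : Finset (Fin d → Fin m)).filter Function.Injective,
        ⋃ h ∈ (univ : Finset (Fin d → Fin n)).filter Function.Injective,
        {X | |((mat c X).submatrix f h).det| < trop c d f h * δ ^ d}) ≤
        ENNReal.ofReal (2 ^ ((m + n) * m) * q) := by
      intro d hd
      have hdm : d ≤ m := by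
        rw [mem_range] at hd
        omega
      refine (measure_biUnion_finset_le _ _).trans ?_
      have hone' : ∀ f ∈ (univ : Finset (Fin d → Fin m)).filter Function.Injective, Measure.pi μ
          (⋃ h ∈ (univ : Finset (Fin d → Fin n)).filter Function.Injective,
          {X | |((mat c X).submatrix f h).det| < trop c d f h * δ ^ d}) ≤
          ENNReal.ofReal (2 ^ (n * m) * q) := by
        intro f hf
        refine (measure_biUnion_finset_le _ _).trans ?_
        refine (Finset.sum_le_sum (g := fun _ => ENNReal.ofReal q) fun h hh => ?_).trans ?_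
        · refine (det_small c hμ hδ0 d f h (mem_filter.1 hf).2 (mem_filter.1 hh).2).trans ?_
          apply ENNReal.ofReal_le_ofReal
          have : (d : ℝ) ≤ 2 ^ m := le_trans (by exact_mod_cast hdm) hm
          rw [hq]
          gcongr
        · rw [Finset.sum_const, nsmul_eq_mul, ← ENNReal.ofReal_natCast,
            ← ENNReal.ofReal_mul (by positivity)]
          apply ENNReal.ofReal_le_ofReal
          have h4 : (((univ : Finset (Fin d → Fin n)).filter Function.Injective).card : ℝ) ≤
              2 ^ (n * m) := by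
            have h5 : ((univ : Finset (Fin d → Fin n)).filter Function.Injective).card ≤ n ^ d := by
              refine (card_filter_le _ _).trans ?_
              simp
            calc (((univ : Finset (Fin d → Fin n)).filter Function.Injective).card : ℝ)
                ≤ ((n ^ d : ℕ) : ℝ) := by exact_mod_cast h5
              _ = (n : ℝ) ^ d := by push_cast; ring
              _ ≤ ((2 : ℝ) ^ n) ^ d := by gcongr
              _ ≤ ((2 : ℝ) ^ n) ^ m := pow_le_pow_right₀ (one_le_pow₀ (by norm_num)) hdm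
              _ = _ := by rw [← pow_mul]
          gcongr
      refine (Finset.sum_le_sum hone').trans ?_
      rw [Finset.sum_const, nsmul_eq_mul, ← ENNReal.ofReal_natCast,
        ← ENNReal.ofReal_mul (by positivity)]
      apply ENNReal.ofReal_le_ofReal
      have h4 : (((univ : Finset (Fin d → Fin m)).filter Function.Injective).card : ℝ) ≤
          2 ^ (m * m) := by
        have h5 : ((univ : Finset (Fin d → Fin m)).filter Function.Injective).card ≤ m ^ d := by
          refine (card_filter_le _ _).trans ?_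
          simp
        calc (((univ : Finset (Fin d → Fin m)).filter Function.Injective).card : ℝ)
            ≤ ((m ^ d : ℕ) : ℝ) := by exact_mod_cast h5
          _ = (m : ℝ) ^ d := by push_cast; ring
          _ ≤ ((2 : ℝ) ^ m) ^ d := by gcongr
          _ ≤ ((2 : ℝ) ^ m) ^ m := pow_le_pow_right₀ (one_le_pow₀ (by norm_num)) hdm
          _ = _ := by rw [← pow_mul]
      calc (((univ : Finset (Fin d → Fin m)).filter Function.Injective).card : ℝ) *
            (2 ^ (n * m) * q) ≤ 2 ^ (m * m) * (2 ^ (n * m) * q) := by gcongr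
        _ = _ := by
          rw [add_mul, pow_add]
          ring
    refine (measure_biUnion_finset_le _ _).trans ?_
    refine (Finset.sum_le_sum hone).trans ?_
    rw [Finset.sum_const, card_range, nsmul_eq_mul, ← ENNReal.ofReal_natCast,
      ← ENNReal.ofReal_mul (by positivity)]
    apply ENNReal.ofReal_le_ofReal
    calc ((m + 1 : ℕ) : ℝ) * (2 ^ ((m + n) * m) * q) ≤ 2 ^ m * (2 ^ ((m + n) * m) * q) := by
          gcongr
      _ = 2 ^ (2 * m + (m + n) * m + (M + 1)) * δ := by
          rw [hq]
          ring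
      _ = (1 / 2) ^ (M + 1) := by
          rw [hδ, show 2 * m + (m + n) * m + 2 * M + 2 =
            (2 * m + (m + n) * m + (M + 1)) + (M + 1) by ring, pow_add (1 / 2 : ℝ), ← mul_assoc,
            ← mul_pow]
          norm_num
  calc Measure.pi μ (Bad c (2 ^ (M + N)) δ) ≤ _ := measure_mono hsub
    _ ≤ _ := measure_union_le _ _
    _ ≤ ENNReal.ofReal ((1 / 2) ^ (M + 1)) + ENNReal.ofReal ((1 / 2) ^ (M + 1)) := add_le_add h1 h2
    _ = _ := by
      rw [← ENNReal.ofReal_add (by positivity) (by positivity)]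
      congr 1
      ring

end Pool.Agent.Q247.LP
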