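import Mathlib

set_option autoImplicit false

/-!
# Largest terms of determinants

`trop c d f h` is the largest product `∏ |c (f a) (h (σ a))|`, computed by expansion along the first
row.
-/

namespace Pool.Agent.Q247.LP

open Finset

/-- the largest absolute value of a term of the determinant with rows `f` and columns `h` -/
noncomputable def trop {m n : ℕ} (c : Fin m → Fin n → ℝ) :
    (d : ℕ) → (Fin d → Fin m) → (Fin d → Fin n) → ℝ
  | 0, _, _ => 1
  | d + 1, f, h => Finset.univ.sup' ⟨0, mem_univ _⟩ fun j : Fin (d + 1) =>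
      |c (f 0) (h j)| * trop c d (fun a => f a.succ) (fun a => h (j.succAbove a))

/-- the matrix with entries `c i j * X (i, j)` -/
def mat {m n : ℕ} (c : Fin m → Fin n → ℝ) (X : Fin m × Fin n → ℝ) : Matrix (Fin m) (Fin n) ℝ :=
  Matrix.of fun i j => c i j * X (i, j)

variable {m n : ℕ} (c : Fin m → Fin n → ℝ)

theorem trop_nonneg : ∀ (d : ℕ) (f : Fin d → Fin m) (h : Fin d → Fin n), 0 ≤ trop c d f h
  | 0, _, _ => by simp [trop]
  | d + 1, f, h => by
    unfold trop
    exact le_trans (mul_nonneg (abs_nonneg _) (trop_nonneg d _ _))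
      (Finset.le_sup' (fun j : Fin (d + 1) =>
        |c (f 0) (h j)| * trop c d (fun a => f a.succ) (fun a => h (j.succAbove a)))
        (mem_univ (0 : Fin (d + 1))))

theorem trop_attained (d : ℕ) (f : Fin (d + 1) → Fin m) (h : Fin (d + 1) → Fin n) :
    ∃ j : Fin (d + 1), trop c (d + 1) f h =
      |c (f 0) (h j)| * trop c d (fun a => f a.succ) (fun a => h (j.succAbove a)) := by
  obtain ⟨j, -, hj⟩ := Finset.exists_mem_eq_sup' (s := (univ : Finset (Fin (d + 1)))) ⟨0, mem_univ _⟩
    (fun j : Fin (d + 1) =>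
      |c (f 0) (h j)| * trop c d (fun a => f a.succ) (fun a => h (j.succAbove a)))
  refine ⟨j, ?_⟩
  rw [← hj]
  rfl

theorem le_trop (d : ℕ) (f : Fin (d + 1) → Fin m) (h : Fin (d + 1) → Fin n) (j : Fin (d + 1)) :
    |c (f 0) (h j)| * trop c d (fun a => f a.succ) (fun a => h (j.succAbove a)) ≤
      trop c (d + 1) f h := by
  show _ ≤ Finset.univ.sup' ⟨0, mem_univ _⟩ fun j : Fin (d + 1) =>
      |c (f 0) (h j)| * trop c d (fun a => f a.succ) (fun a => h (j.succAbove a))
  exact Finset.le_sup' (fun j : Fin (d + 1) =>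
        |c (f 0) (h j)| * trop c d (fun a => f a.succ) (fun a => h (j.succAbove a))) (mem_univ j)

theorem det_expand (X : Fin m × Fin n → ℝ) (d : ℕ) (f : Fin (d + 1) → Fin m)
    (h : Fin (d + 1) → Fin n) :
    ((mat c X).submatrix f h).det = ∑ j : Fin (d + 1), (-1) ^ (j : ℕ) *
      (c (f 0) (h j) * X (f 0, h j)) *
        ((mat c X).submatrix (fun a => f a.succ) (fun a => h (j.succAbove a))).det := by
  rw [Matrix.det_succ_row_zero]
  rfl

/-- Upper bound. -/
theorem det_le {X : Fin m × Fin n → ℝ} {B : ℝ} (hB : 0 ≤ B) (hX : ∀ p, |X p| ≤ B) :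
    ∀ (d : ℕ) (f : Fin d → Fin m) (h : Fin d → Fin n),
      |((mat c X).submatrix f h).det| ≤ (d.factorial : ℝ) * B ^ d * trop c d f h
  | 0, _, _ => by simp [trop]
  | d + 1, f, h => by
    rw [det_expand]
    calc |∑ j : Fin (d + 1), (-1) ^ (j : ℕ) * (c (f 0) (h j) * X (f 0, h j)) *
          ((mat c X).submatrix (fun a => f a.succ) (fun a => h (j.succAbove a))).det|
        ≤ ∑ j : Fin (d + 1), |(-1) ^ (j : ℕ) * (c (f 0) (h j) * X (f 0, h j)) *
          ((mat c X).submatrix (fun a => f a.succ) (fun a => h (j.succAbove a))).det| :=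
          Finset.abs_sum_le_sum_abs _ _
      _ ≤ ∑ _j : Fin (d + 1), (d.factorial : ℝ) * B ^ (d + 1) * trop c (d + 1) f h := by
          refine Finset.sum_le_sum fun j _ => ?_
          rw [abs_mul, abs_mul, abs_mul, abs_pow, abs_neg, abs_one, one_pow, one_mul]
          have h1 := det_le hB hX d (fun a => f a.succ) (fun a => h (j.succAbove a))
          have h2 := le_trop c d f h j
          have h3 := hX (f 0, h j)
          calc |c (f 0) (h j)| * |X (f 0, h j)| *
                |((mat c X).submatrix (fun a => f a.succ) (fun a => h (j.succAbove a))).det|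
              ≤ |c (f 0) (h j)| * B * ((d.factorial : ℝ) * B ^ d *
                trop c d (fun a => f a.succ) (fun a => h (j.succAbove a))) := by
                gcongr
            _ = (d.factorial : ℝ) * B ^ (d + 1) * (|c (f 0) (h j)| *
                trop c d (fun a => f a.succ) (fun a => h (j.succAbove a))) := by ring
            _ ≤ _ := by gcongr
      _ = _ := by
          rw [Finset.sum_const, card_univ, Fintype.card_fin, nsmul_eq_mul, Nat.factorial_succ]
          push_cast
          ring

/-- The values of `trop` for multiplicatively structured coefficients. -/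
theorem trop_val {K : ℕ} (t : Fin K → ℝ) (ht : ∀ k, 0 < t k) (u : Fin m → ℝ) (v : Fin n → ℝ)
    (e : Fin m → Fin n → Fin K → ℤ) (M : ℕ) (he : ∀ i j k, |e i j k| ≤ M)
    (hc : ∀ i j, c i j = 0 ∨ c i j = u i * v j * ∏ k, t k ^ e i j k) :
    ∀ (d : ℕ) (f : Fin d → Fin m) (h : Fin d → Fin n),
      trop c d f h = 0 ∨ ∃ E : Fin K → ℤ, (∀ k, |E k| ≤ d * M) ∧
        trop c d f h = (∏ a, |u (f a)|) * (∏ a, |v (h a)|) * ∏ k, t k ^ E k
  | 0, f, h => by
    right
    exact ⟨0, by simp, by simp [trop]⟩
  | d + 1, f, h => by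
    obtain ⟨j, hj⟩ := trop_attained c d f h
    rcases trop_val t ht u v e M he hc d (fun a => f a.succ) (fun a => h (j.succAbove a)) with h0 | ⟨E, hE, h1⟩
    · left
      rw [hj, h0, mul_zero]
    · rcases hc (f 0) (h j) with h2 | h2
      · left
        rw [hj, h2, abs_zero, zero_mul]
      · right
        refine ⟨fun k => e (f 0) (h j) k + E k, fun k => ?_, ?_⟩
        · calc |e (f 0) (h j) k + E k| ≤ |e (f 0) (h j) k| + |E k| := abs_add_le _ _
            _ ≤ M + d * M := add_le_add (he _ _ _) (hE k)
            _ = _ := by push_cast; ring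
        · rw [hj, h1, h2, Fin.prod_univ_succ (fun a => |u (f a)|),
            Fin.prod_univ_succAbove (fun a => |v (h a)|) j]
          have h3 : |u (f 0) * v (h j) * ∏ k, t k ^ e (f 0) (h j) k| =
              |u (f 0)| * |v (h j)| * ∏ k, t k ^ e (f 0) (h j) k := by
            rw [abs_mul, abs_mul]
            congr 1
            exact abs_of_pos (Finset.prod_pos fun k _ => zpow_pos (ht k) _)
          have h4 : ∏ k, t k ^ (e (f 0) (h j) k + E k) =
              (∏ k, t k ^ e (f 0) (h j) k) * ∏ k, t k ^ E k := by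
            rw [← Finset.prod_mul_distrib]
            exact Finset.prod_congr rfl fun k _ => zpow_add₀ (ht k).ne' _ _
          rw [h3, h4]
          ring

end Pool.Agent.Q247.LP
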